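import Pool.Agent.Helper41_MWGR.EvTwo

/-!
# Block MWGR, row NFR
-/

namespace Pool.Agent.MWGR.H41

open Pool.Agent.Helper14_MV Pool.Agent.Helper2_MV Pool.Agent.MVO Pool.Agent.MWL Pool.Agent.MWS
  Pool.Agent.MWH

/-- the map with two values -/
def f1 (i : ℕ) : ℕ → ℕ := fun j => if j ≤ i then 0 else 1

open Classical in
/-- the map with three values, the threshold is the first block behind `i` with the letter `y` -/
noncomputable def f2 (i y : ℕ) (B : ℕ → List ℕ) : ℕ → ℕ := fun j =>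
  if j ≤ i then 0 else if ∃ j', i < j' ∧ j' ≤ j ∧ y ∈ B j' then 2 else 1

theorem f1_map (k i : ℕ) : BMap k 1 (f1 i) := by
  constructor
  · intro a b hab hb
    unfold f1
    split_ifs <;> omega
  · intro a ha
    unfold f1
    split_ifs <;> omega

theorem f2_map (k i y : ℕ) (B : ℕ → List ℕ) : BMap k 2 (f2 i y B) := by
  constructor
  · intro a b hab hb
    unfold f2
    by_cases h1 : a ≤ i
    · rw [if_pos h1]
      omega
    · rw [if_neg h1, if_neg (show ¬ b ≤ i by omega)]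
      by_cases h2 : ∃ j', i < j' ∧ j' ≤ a ∧ y ∈ B j'
      · obtain ⟨j', h3, h4, h5⟩ := h2
        rw [if_pos ⟨j', h3, h4, h5⟩, if_pos ⟨j', h3, by omega, h5⟩]
      · rw [if_neg h2]
        split_ifs <;> omega
  · intro a ha
    unfold f2
    split_ifs <;> omega

theorem f1_zero (i j : ℕ) : f1 i j = 0 ↔ j ≤ i := by
  unfold f1
  by_cases h : j ≤ i
  · rw [if_pos h]
    exact ⟨fun _ => h, fun _ => rfl⟩
  · rw [if_neg h]
    exact ⟨fun h' => by omega, fun h' => absurd h' h⟩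

theorem f2_zero (i y : ℕ) (B : ℕ → List ℕ) (j : ℕ) : f2 i y B j = 0 ↔ j ≤ i := by
  unfold f2
  by_cases h : j ≤ i
  · rw [if_pos h]
    exact ⟨fun _ => h, fun _ => rfl⟩
  · rw [if_neg h]
    refine ⟨fun h' => ?_, fun h' => absurd h' h⟩
    exfalso
    revert h'
    split_ifs
    · intro h'
      omega
    · intro h'
      omega

theorem f2_one (i y : ℕ) (B : ℕ → List ℕ) (j : ℕ) :
    f2 i y B j = 1 ↔ i < j ∧ ∀ j', i < j' → j' ≤ j → y ∉ B j' := by
  unfold f2
  by_cases h1 : j ≤ i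
  · rw [if_pos h1]
    constructor
    · intro h
      omega
    · rintro ⟨h, _⟩
      omega
  · rw [if_neg h1]
    by_cases h2 : ∃ j', i < j' ∧ j' ≤ j ∧ y ∈ B j'
    · rw [if_pos h2]
      obtain ⟨j', h3, h4, h5⟩ := h2
      constructor
      · intro h
        omega
      · rintro ⟨_, h⟩
        exact absurd h5 (h j' h3 h4)
    · rw [if_neg h2]
      refine ⟨fun _ => ⟨by omega, fun j' h3 h4 h5 => h2 ⟨j', h3, h4, h5⟩⟩, fun _ => rfl⟩

theorem f2_two (i y : ℕ) (B : ℕ → List ℕ) (j : ℕ) :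
    f2 i y B j = 2 ↔ ∃ j', i < j' ∧ j' ≤ j ∧ y ∈ B j' := by
  unfold f2
  by_cases h1 : j ≤ i
  · rw [if_pos h1]
    constructor
    · intro h
      omega
    · rintro ⟨j', h, h', _⟩
      omega
  · rw [if_neg h1]
    by_cases h2 : ∃ j', i < j' ∧ j' ≤ j ∧ y ∈ B j'
    · rw [if_pos h2]
      exact ⟨fun _ => h2, fun _ => rfl⟩
    · rw [if_neg h2]
      exact ⟨fun h => by omega, fun h => absurd h h2⟩

/-- the heart: all `x` stand before `a` in `B i`, not in `B' i` -/
theorem core (h1 : PslStmt) (h2 : Nt0Stmt) (h3 : Nt1Stmt) (h4 : Nt2Stmt) {n k : ℕ} {θ : FIC}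
    {B B' : ℕ → List ℕ} (hB : BG n (RR θ)) (hF : Fam n k B B')
    (hR : RR θ (asm k B) (asm k B')) {i x a : ℕ} (hi : i ≤ k) (hxa : x ≠ a)
    (hx : 2 ≤ (B i).count x) (ha : (B i).count a = 1)
    (hs : cb (B i) x a = (B i).count x) (hs' : cb (B' i) x a ≠ (B' i).count x) :
    (Rg k B i x a → (∀ j, i < j → j ≤ k → x ∉ B j) → Al0 n (RR θ)) ∧
    (Rg k B i x a → (∃ j, i < j ∧ j ≤ k ∧ x ∈ B j) → Al1 n (RR θ)) ∧
    (Rg k B i a x → (∃ j, i < j ∧ j ≤ k ∧ x ∈ B j) → Al2 n (RR θ)) := by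
  obtain ⟨hna, hp, hp', ha', ja, hja1, hja2, hja3⟩ := light hF hi ha
  have hnx : NS k x := fam_ns hF hi (List.count_pos_iff.1 (by omega))
  have hx' : 2 ≤ (B' i).count x := by
    have := hF.eq x hnx i hi
    simp only [MWS.ty] at this
    omega
  have hma : ∀ j ≤ k, (a ∈ B' j ↔ a ∈ B j) := fun j hj => fam_mem hF hna hj
  have hmx : ∀ j ≤ k, (x ∈ B' j ↔ x ∈ B j) := fun j hj => fam_mem hF hnx hj
  refine ⟨?_, ?_, ?_⟩
  · intro _ hnox
    have hf : ∀ j ≤ k, (f1 i j = 0 ↔ j ≤ i) := fun j _ => f1_zero i j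
    have hw := h1 θ k 1 0 (f1 i) B B' (sg x a) (f1_map k i) (by omega) hF.ok.ok hF.ok'.ok hR
    obtain ⟨hle, e0⟩ := ev0 hi hf hp ha hxa
    obtain ⟨hle', e0'⟩ := ev0 (C := B') hi hf hp' ha' hxa
    have e1 := evy (k := k) (t := 1) (x := x) (a := a) (f := f1 i) (C := B) (by
      intro j hj hfj
      refine hnox j ?_ hj
      by_contra hcon
      have := (f1_zero i j).2 (by omega)
      omega)
    have e1' := evy (k := k) (t := 1) (x := x) (a := a) (f := f1 i) (C := B') (by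
      intro j hj hfj
      rw [hmx j hj]
      refine hnox j ?_ hj
      by_contra hcon
      have := (f1_zero i j).2 (by omega)
      omega)
    have hfj : f1 i ja = 1 := by
      unfold f1
      rw [if_neg (by omega)]
    have p1 := pos_psh (k := k) (t := 1) (y := a) (f := f1 i) (C := B) ⟨ja, hja2, hfj, hja3⟩
    have p1' := pos_psh (k := k) (t := 1) (y := a) (f := f1 i) (C := B')
      ⟨ja, hja2, hfj, (hma ja hja2).2 hja3⟩
    simp only [asd, e0, e0', e1, e1'] at hw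
    rw [hs, Nat.sub_self] at hw
    refine h2 n θ hB _ _ _ _ _ ?_ ?_ ?_ p1 p1' (by simpa using hw)
    · omega
    · omega
    · omega
  · intro hrg hex
    obtain ⟨jx, hjx1, hjx2, hjx3⟩ := hex
    set f := f2 i a B with hfdef
    have hf : ∀ j ≤ k, (f j = 0 ↔ j ≤ i) := fun j _ => f2_zero i a B j
    have hlt : jx < ja := hrg ja jx hja1 hja2 hjx1 hjx2 hja3 hjx3
    have hw := h1 θ k 2 0 f B B' (sg x a) (f2_map k i a B) (by omega) hF.ok.ok hF.ok'.ok hR
    obtain ⟨hle, e0⟩ := ev0 hi hf hp ha hxa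
    obtain ⟨hle', e0'⟩ := ev0 (C := B') hi hf hp' ha' hxa
    have na1 : ∀ j ≤ k, f j = 1 → a ∉ B j := by
      intro j hj hfj
      obtain ⟨h5, h6⟩ := (f2_one i a B j).1 hfj
      exact h6 j h5 (le_refl j)
    have nx2 : ∀ j ≤ k, f j = 2 → x ∉ B j := by
      intro j hj hfj hxj
      obtain ⟨j', h5, h6, h7⟩ := (f2_two i a B j).1 hfj
      have := hrg j' j h5 (by omega) (by omega) hj h7 hxj
      omega
    have e1 := evx (k := k) (t := 1) (x := x) (a := a) (f := f) (C := B) na1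
    have e1' := evx (k := k) (t := 1) (x := x) (a := a) (f := f) (C := B') (fun j hj hfj => by
      rw [hma j hj]
      exact na1 j hj hfj)
    have e2 := evy (k := k) (t := 2) (x := x) (a := a) (f := f) (C := B) nx2
    have e2' := evy (k := k) (t := 2) (x := x) (a := a) (f := f) (C := B') (fun j hj hfj => by
      rw [hmx j hj]
      exact nx2 j hj hfj)
    have hfx : f jx = 1 := by
      rw [hfdef, f2_one]
      refine ⟨hjx1, fun j' h5 h6 h7 => ?_⟩
      have := hrg j' jx h5 (by omega) hjx1 hjx2 h7 hjx3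
      omega
    have hfa : f ja = 2 := by
      rw [hfdef, f2_two]
      exact ⟨ja, hja1, le_refl ja, hja3⟩
    have p1 := pos_psh (k := k) (t := 1) (y := x) (f := f) (C := B) ⟨jx, hjx2, hfx, hjx3⟩
    have p2 := pos_psh (k := k) (t := 2) (y := a) (f := f) (C := B) ⟨ja, hja2, hfa, hja3⟩
    have p2' := pos_psh (k := k) (t := 2) (y := a) (f := f) (C := B')
      ⟨ja, hja2, hfa, (hma ja hja2).2 hja3⟩
    simp only [asd, e0, e0', e1, e1', e2, e2'] at hw
    rw [hs, Nat.sub_self] at hw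
    refine h3 n θ hB _ _ _ _ _ _ _ ?_ ?_ ?_ p1 p2 p2' (by simpa using hw)
    · omega
    · omega
    · omega
  · intro hrg hex
    obtain ⟨jx, hjx1, hjx2, hjx3⟩ := hex
    set f := f2 i x B with hfdef
    have hf : ∀ j ≤ k, (f j = 0 ↔ j ≤ i) := fun j _ => f2_zero i x B j
    have hlt : ja < jx := hrg jx ja hjx1 hjx2 hja1 hja2 hjx3 hja3
    have hw := h1 θ k 2 0 f B B' (sg x a) (f2_map k i x B) (by omega) hF.ok.ok hF.ok'.ok hR
    obtain ⟨hle, e0⟩ := ev0 hi hf hp ha hxa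
    obtain ⟨hle', e0'⟩ := ev0 (C := B') hi hf hp' ha' hxa
    have nx1 : ∀ j ≤ k, f j = 1 → x ∉ B j := by
      intro j hj hfj
      obtain ⟨h5, h6⟩ := (f2_one i x B j).1 hfj
      exact h6 j h5 (le_refl j)
    have na2 : ∀ j ≤ k, f j = 2 → a ∉ B j := by
      intro j hj hfj hxj
      obtain ⟨j', h5, h6, h7⟩ := (f2_two i x B j).1 hfj
      have := hrg j' j h5 (by omega) (by omega) hj h7 hxj
      omega
    have e1 := evy (k := k) (t := 1) (x := x) (a := a) (f := f) (C := B) nx1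
    have e1' := evy (k := k) (t := 1) (x := x) (a := a) (f := f) (C := B') (fun j hj hfj => by
      rw [hmx j hj]
      exact nx1 j hj hfj)
    have e2 := evx (k := k) (t := 2) (x := x) (a := a) (f := f) (C := B) na2
    have e2' := evx (k := k) (t := 2) (x := x) (a := a) (f := f) (C := B') (fun j hj hfj => by
      rw [hma j hj]
      exact na2 j hj hfj)
    have hfa : f ja = 1 := by
      rw [hfdef, f2_one]
      refine ⟨hja1, fun j' h5 h6 h7 => ?_⟩
      have := hrg j' ja h5 (by omega) hja1 hja2 h7 hja3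
      omega
    have hfx : f jx = 2 := by
      rw [hfdef, f2_two]
      exact ⟨jx, hjx1, le_refl jx, hjx3⟩
    have p1 := pos_psh (k := k) (t := 1) (y := a) (f := f) (C := B) ⟨ja, hja2, hfa, hja3⟩
    have p1' := pos_psh (k := k) (t := 1) (y := a) (f := f) (C := B')
      ⟨ja, hja2, hfa, (hma ja hja2).2 hja3⟩
    have p2 := pos_psh (k := k) (t := 2) (y := x) (f := f) (C := B) ⟨jx, hjx2, hfx, hjx3⟩
    simp only [asd, e0, e0', e1, e1', e2, e2'] at hw
    rw [hs, Nat.sub_self] at hw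
    refine h4 n θ hB _ _ _ _ _ _ _ ?_ ?_ ?_ p2 p1 p1' (by simpa using hw)
    · omega
    · omega
    · omega

theorem nfr (h1 : PslStmt) (_h2 : PbiStmt) (_h3 : SptStmt) (_h4 : EvlStmt) (h5 : Nt0Stmt)
    (h6 : Nt1Stmt) (h7 : Nt2Stmt) : NfrStmt := by
  intro n k θ B B' hB hF hR i x a hi hxa hx ha hne
  obtain ⟨hna, hp, hp', ha', ja, hja1, hja2, hja3⟩ := light hF hi ha
  have hnx : NS k x := fam_ns hF hi (List.count_pos_iff.1 (by omega))
  have hx' : 2 ≤ (B' i).count x := by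
    have := hF.eq x hnx i hi
    simp only [MWS.ty] at this
    omega
  have hmx : ∀ j ≤ k, (x ∈ B' j ↔ x ∈ B j) := fun j hj => fam_mem hF hnx hj
  by_cases hs : cb (B i) x a = (B i).count x
  · exact core h1 h5 h6 h7 hB hF hR hi hxa hx ha hs (fun h => hne ⟨fun _ => h, fun _ => hs⟩)
  · have hs' : cb (B' i) x a = (B' i).count x := by
      by_contra hcon
      exact hne ⟨fun h => absurd h hs, fun h => absurd h hcon⟩
    obtain ⟨c1, c2, c3⟩ := core h1 h5 h6 h7 hB (fam_symm hF) (RR.symm hR) hi hxa hx' ha' hs' hs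
    refine ⟨fun hr hn => c1 ((rg_iff hF hnx hna).2 hr) ?_,
      fun hr he => c2 ((rg_iff hF hnx hna).2 hr) ?_,
      fun hr he => c3 ((rg_iff hF hna hnx).2 hr) ?_⟩
    · intro j hj1 hj2 hj3
      exact hn j hj1 hj2 ((hmx j hj2).1 hj3)
    · obtain ⟨j, hj1, hj2, hj3⟩ := he
      exact ⟨j, hj1, hj2, (hmx j hj2).2 hj3⟩
    · obtain ⟨j, hj1, hj2, hj3⟩ := he
      exact ⟨j, hj1, hj2, (hmx j hj2).2 hj3⟩

end Pool.Agent.MWGR.H41
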