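import Pool.Agent.MWGR.StmtsC

/-!
# Block MWGR, row VER
-/

namespace Pool.Agent.MWGR.H41

open Pool.Agent.Helper14_MV Pool.Agent.Helper2_MV Pool.Agent.MVO Pool.Agent.MWL Pool.Agent.MWS
  Pool.Agent.MWH

theorem count_GG (S : List ℕ) (g : ℕ → ℕ) (z : ℕ) :
    (GG S g).count z = g z * S.count z := by
  induction S with
  | nil => simp [GG]
  | cons x S ih =>
    have h1 : GG (x :: S) g = List.replicate (g x) x ++ GG S g := by simp [GG]
    rw [h1, List.count_append, ih, List.count_replicate, List.count_cons]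
    by_cases hx : x = z
    · subst hx
      simp
      ring
    · have : (x == z) = false := by simpa using hx
      simp [this]

theorem count_rp (m : ℕ) (W : List ℕ) (z : ℕ) : (rp m W).count z = m * W.count z := by
  induction m with
  | zero => simp [rp]
  | succ m ih =>
    have h1 : rp (m + 1) W = W ++ rp m W := by simp [rp, List.replicate_succ]
    rw [h1, List.count_append, ih]
    ring

theorem perm1 (S : List ℕ) (g f : ℕ → ℕ) (k : ℕ) :
    (GG S (fun x => g x + k * f x)).Perm (GG S g ++ rp k (GG S f)) := by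
  rw [List.perm_iff_count]
  intro z
  simp only [List.count_append, count_GG, count_rp]
  ring

theorem perm2 (S : List ℕ) (g f : ℕ → ℕ) (k : ℕ) :
    (GG S (fun x => g x + k * f x)).Perm (rp k (GG S f) ++ GG S g) := by
  rw [List.perm_iff_count]
  intro z
  simp only [List.count_append, count_GG, count_rp]
  ring

theorem perm3 (S : List ℕ) (f : ℕ → ℕ) (k : ℕ) :
    (GG S (fun x => k * f x)).Perm (rp k (GG S f)) := by
  rw [List.perm_iff_count]
  intro z
  simp only [count_GG, count_rp]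
  ring

theorem mem_GG {S : List ℕ} {g : ℕ → ℕ} {z : ℕ} (h : z ∈ GG S g) : z ∈ S := by
  simp only [GG, List.mem_flatMap, List.mem_replicate] at h
  obtain ⟨x, hx, _, rfl⟩ := h
  exact hx

theorem GG_zero (S : List ℕ) : GG S (fun _ => 0) = [] := by
  simp [GG]

theorem okC {H pre suf l l' S : List ℕ} (hl : Ok1 H pre suf l)
    (h1 : ∀ z, z ∉ S → l'.count z = l.count z) (h2 : ∀ x ∈ S, x ∈ H ∧ 2 ≤ l'.count x) :
    Ok1 H pre suf l' := by
  refine ⟨hl.nd, ?_, ?_⟩
  · intro x hx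
    by_cases hS : x ∈ S
    · exact (h2 x hS).2
    · rw [h1 x hS]
      exact hl.hv x hx
  · intro z hz hzH
    have hS : z ∉ S := fun h => hzH (h2 z h).1
    have hz' : z ∈ l := by
      rw [← List.count_pos_iff] at hz ⊢
      rw [← h1 z hS]
      exact hz
    rw [h1 z hS]
    exact hl.lt z hz' hzH

theorem stepQ (h1 : PrmStmt) (h2 : ExsStmt) {n : ℕ} {η : FIC} (hB : BG n (RR η))
    {H pre suf S A D P : List ℕ} {g g' : ℕ → ℕ} (hS : ∀ x ∈ S, x ∈ H ∧ x ∈ A ∧ x ∈ D)
    (hP : (GG S g').Perm P) (hg : ∀ x ∈ S, g x ≡ g' x [MOD n])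
    (hOk : Ok1 H pre suf (A ++ (GG S g ++ D))) :
    Ok1 H pre suf (A ++ (P ++ D)) ∧
      RR η (Wd pre suf (A ++ (GG S g ++ D))) (Wd pre suf (A ++ (P ++ D))) := by
  obtain ⟨hok1, hr1⟩ := (h2 n η hB H pre suf S A D g g' hS).1 hOk hg
  obtain ⟨hok2, hr2⟩ := h1 n η hB H pre suf A (GG S g') P D hok1
    (fun c hc => (hS c (mem_GG hc)).1) hP
  exact ⟨hok2, η.trans hr1 hr2⟩

theorem ver (h1 : PrmStmt) (h2 : ExsStmt) : VerStmt := by
  intro n η hB H pre suf a b c ha hb hE S h hnd hh A D hS hOk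
  have hn : 1 ≤ n := hB.pos
  choose! e he using hh
  obtain ⟨m, rfl⟩ : ∃ m, n = m + 1 := ⟨n - 1, by omega⟩
  have hm : m + 1 - 1 = m := by omega
  have hcast : (m : ZMod (m + 1)) = -1 := by
    have : ((m + 1 : ℕ) : ZMod (m + 1)) = 0 := ZMod.natCast_self (m + 1)
    push_cast at this
    linear_combination this
  have hez : ∀ x ∈ S, (h x : ZMod (m + 1)) = e x * c := by
    intro x hx
    have := (ZMod.natCast_eq_natCast_iff _ _ _).2 (he x hx)
    push_cast at this
    exact this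
  set f : ℕ → ℕ := fun x => m * e x with hf
  set W : List ℕ := GG S f with hW
  have hWH : ∀ z ∈ W, z ∈ H := fun z hz => (hS z (mem_GG hz)).1
  rw [hm]
  -- the target word
  have hOk2 : Ok1 H pre suf (A ++ (GG S h ++ b :: (GG S (fun x => m * h x) ++
      a :: (GG S h ++ D)))) := by
    refine okC (S := S) hOk ?_ ?_
    · intro z hz
      have h0 : S.count z = 0 := List.count_eq_zero.2 hz
      simp only [List.count_append, List.count_cons, count_GG, h0]
      ring
    · intro x hx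
      obtain ⟨h3, h4, h5⟩ := hS x hx
      refine ⟨h3, ?_⟩
      have h6 := List.count_pos_iff.2 h4
      have h7 := List.count_pos_iff.2 h5
      simp only [List.count_append, List.count_cons]
      omega
  -- first chain
  have hS1 : ∀ x ∈ S, x ∈ H ∧ x ∈ A ∧ x ∈ (a :: (GG S h ++ b :: D)) := by
    intro x hx
    obtain ⟨h3, h4, h5⟩ := hS x hx
    exact ⟨h3, h4, by simp [h5]⟩
  have c1 := stepQ h1 h2 hB (pre := pre) (suf := suf) (g := fun _ => 0)
    (g' := fun x => h x + (m + 1 + c) * f x) hS1 (perm1 S h f (m + 1 + c)) (by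
      intro x hx
      rw [← ZMod.natCast_eq_natCast_iff]
      simp only [hf]
      push_cast
      rw [hez x hx, hcast]
      ring) (by simpa [GG_zero] using hOk)
  obtain ⟨k1, r1⟩ := c1
  set A2 := A ++ (GG S h ++ rp (m + 1 + c) W) ++ [a] with hA2
  have e1 : A ++ ((GG S h ++ rp (m + 1 + c) W) ++ (a :: (GG S h ++ b :: D))) =
      A2 ++ (GG S h ++ b :: D) := by simp [hA2]
  rw [e1] at k1 r1
  have hS2 : ∀ x ∈ S, x ∈ H ∧ x ∈ A2 ∧ x ∈ (b :: D) := by
    intro x hx
    obtain ⟨h3, h4, h5⟩ := hS x hx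
    exact ⟨h3, by simp [hA2, h4], by simp [h5]⟩
  obtain ⟨k2, r2⟩ := stepQ h1 h2 hB (pre := pre) (suf := suf) (g := h)
    (g' := fun x => (m + 1 + m * c) * f x) hS2 (perm3 S f (m + 1 + m * c)) (by
      intro x hx
      rw [← ZMod.natCast_eq_natCast_iff]
      simp only [hf]
      push_cast
      rw [hez x hx, hcast]
      ring) k1
  set A3 := A2 ++ rp (m + 1 + m * c) W ++ [b] with hA3
  have e2 : A2 ++ (rp (m + 1 + m * c) W ++ (b :: D)) = A3 ++ ([] ++ D) := by simp [hA3]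
  rw [e2, ← GG_zero S] at k2 r2
  have hS3 : ∀ x ∈ S, x ∈ H ∧ x ∈ A3 ∧ x ∈ D := by
    intro x hx
    obtain ⟨h3, h4, h5⟩ := hS x hx
    exact ⟨h3, by simp [hA3, hA2, h4], h5⟩
  obtain ⟨k3, r3⟩ := stepQ h1 h2 hB (pre := pre) (suf := suf) (g := fun _ => 0)
    (g' := fun x => h x + (m + 1 + c) * f x) hS3 (perm2 S h f (m + 1 + c)) (by
      intro x hx
      rw [← ZMod.natCast_eq_natCast_iff]
      simp only [hf]
      push_cast
      rw [hez x hx, hcast]
      ring) k2
  -- second chain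
  have hT1 : ∀ x ∈ S, x ∈ H ∧ x ∈ A ∧ x ∈ (b :: (GG S (fun x => m * h x) ++
      a :: (GG S h ++ D))) := by
    intro x hx
    obtain ⟨h3, h4, h5⟩ := hS x hx
    exact ⟨h3, h4, by simp [h5]⟩
  obtain ⟨l1, s1⟩ := stepQ h1 h2 hB (pre := pre) (suf := suf) (g := h)
    (g' := fun x => h x + (m + 1) * f x) hT1 (perm1 S h f (m + 1)) (by
      intro x hx
      rw [← ZMod.natCast_eq_natCast_iff]
      simp only [hf]
      push_cast
      rw [hez x hx, hcast]
      ring) hOk2
  set B2 := A ++ (GG S h ++ rp (m + 1) W) ++ [b] with hB2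
  have e3 : A ++ ((GG S h ++ rp (m + 1) W) ++ (b :: (GG S (fun x => m * h x) ++
      a :: (GG S h ++ D)))) = B2 ++ (GG S (fun x => m * h x) ++ a :: (GG S h ++ D)) := by
    simp [hB2]
  rw [e3] at l1 s1
  have hT2 : ∀ x ∈ S, x ∈ H ∧ x ∈ B2 ∧ x ∈ (a :: (GG S h ++ D)) := by
    intro x hx
    obtain ⟨h3, h4, h5⟩ := hS x hx
    exact ⟨h3, by simp [hB2, h4], by simp [h5]⟩
  obtain ⟨l2, s2⟩ := stepQ h1 h2 hB (pre := pre) (suf := suf) (g := fun x => m * h x)
    (g' := fun x => (m + 1 + c) * f x) hT2 (perm3 S f (m + 1 + c)) (by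
      intro x hx
      rw [← ZMod.natCast_eq_natCast_iff]
      simp only [hf]
      push_cast
      rw [hez x hx, hcast]
      ring) l1
  set B3 := B2 ++ rp (m + 1 + c) W ++ [a] with hB3
  have e4 : B2 ++ (rp (m + 1 + c) W ++ (a :: (GG S h ++ D))) = B3 ++ (GG S h ++ D) := by
    simp [hB3]
  rw [e4] at l2 s2
  have hT3 : ∀ x ∈ S, x ∈ H ∧ x ∈ B3 ∧ x ∈ D := by
    intro x hx
    obtain ⟨h3, h4, h5⟩ := hS x hx
    exact ⟨h3, by simp [hB3, hB2, h4], h5⟩
  obtain ⟨l3, s3⟩ := stepQ h1 h2 hB (pre := pre) (suf := suf) (g := h)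
    (g' := fun x => h x + (m + 1) * f x) hT3 (perm2 S h f (m + 1)) (by
      intro x hx
      rw [← ZMod.natCast_eq_natCast_iff]
      simp only [hf]
      push_cast
      rw [hez x hx, hcast]
      ring) l2
  -- the exchange
  have e5 : B3 ++ ((rp (m + 1) W ++ GG S h) ++ D) = (A ++ GG S h) ++ (rp (m + 1) W ++
      b :: (rp (m + 1 + c) W ++ a :: (rp (m + 1) W ++ (GG S h ++ D)))) := by
    simp [hB3, hB2]
  have e6 : A3 ++ ((rp (m + 1 + c) W ++ GG S h) ++ D) = (A ++ GG S h) ++ (rp (m + 1 + c) W ++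
      a :: (rp (m + 1 + m * c) W ++ b :: (rp (m + 1 + c) W ++ (GG S h ++ D)))) := by
    simp [hA3, hA2]
  have hX := hE (A ++ GG S h) (GG S h ++ D) W hWH (by rw [← e5]; exact l3)
  rw [hm, ← e5, ← e6] at hX
  have r0 : RR η (Wd pre suf (A ++ a :: (GG S h ++ b :: D)))
      (Wd pre suf (A2 ++ (GG S h ++ b :: D))) := by
    simpa [GG_zero] using r1
  exact η.trans r0 (η.trans r2 (η.trans r3 (η.trans (RR.symm hX)
    (η.trans (RR.symm s3) (η.trans (RR.symm s2) (RR.symm s1))))))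

end Pool.Agent.MWGR.H41
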