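import Pool.Agent.MWGR.StmtsN
import Pool.Agent.MWGR.StmtsD

/-!
# Block MWGR: evaluation of pushed words with two letters
-/

namespace Pool.Agent.MWGR.H41

open Pool.Agent.Helper14_MV Pool.Agent.Helper2_MV Pool.Agent.MVO Pool.Agent.MWL Pool.Agent.MWS
  Pool.Agent.MWH

/-- keep `x` (as `0`) and `a` (as `1`) -/
def sg (x a : ℕ) : ℕ → List ℕ := fun c => if c = x then [0] else if c = a then [1] else []

theorem fx {x a : ℕ} {l : List ℕ} (h : a ∉ l) : l.flatMap (sg x a) = X (l.count x) := by
  induction l with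
  | nil => simp
  | cons c l ih =>
    have h1 : c ≠ a := fun e => h (by simp [e])
    have h2 : a ∉ l := fun e => h (by simp [e])
    rw [List.flatMap_cons, ih h2, List.count_cons]
    by_cases hc : c = x
    · simp [sg, hc, List.replicate_succ]
    · simp [sg, hc, h1]

theorem fy {x a : ℕ} {l : List ℕ} (h : x ∉ l) : l.flatMap (sg x a) = Y (l.count a) := by
  induction l with
  | nil => simp
  | cons c l ih =>
    have h1 : c ≠ x := fun e => h (by simp [e])
    have h2 : x ∉ l := fun e => h (by simp [e])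
    rw [List.flatMap_cons, ih h2, List.count_cons]
    by_cases hc : c = a
    · subst hc
      simp [sg, h1, List.replicate_succ]
    · simp [sg, hc, h1]

theorem spt {l : List ℕ} {a : ℕ} (h : l.count a = 1) :
    ∃ P Q : List ℕ, l = P ++ a :: Q ∧ a ∉ P ∧ a ∉ Q ∧ ∀ x, cb l x a = P.count x := by
  have hm : a ∈ l := List.count_pos_iff.1 (by omega)
  obtain ⟨P, Q, rfl⟩ := List.append_of_mem hm
  rw [List.count_append, List.count_cons_self] at h
  have hP : a ∉ P := fun e => by
    have := List.count_pos_iff.2 e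
    omega
  have hQ : a ∉ Q := fun e => by
    have := List.count_pos_iff.2 e
    omega
  refine ⟨P, Q, rfl, hP, hQ, fun x => ?_⟩
  unfold cb
  rw [List.takeWhile_append_of_pos]
  · simp
  · intro c hc
    simp only [decide_eq_true_eq]
    rintro rfl
    exact hP hc

theorem pb0 {k i : ℕ} {f : ℕ → ℕ} (C : ℕ → List ℕ) (hik : i ≤ k)
    (hf : ∀ j ≤ k, (f j = 0 ↔ j ≤ i)) : pshB k f C 0 = (List.range i).flatMap C ++ C i := by
  have h1 : pshB k f C 0 = (List.range (i + 1)).flatMap C := by
    unfold pshB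
    have e : k + 1 = (i + 1) + (k - i) := by omega
    rw [e, List.range_add, List.filter_append, List.flatMap_append]
    have h2 : (List.range (i + 1)).filter (fun j => decide (f j = 0)) = List.range (i + 1) := by
      rw [List.filter_eq_self]
      intro j hj
      rw [List.mem_range] at hj
      rw [decide_eq_true_iff]
      exact (hf j (by omega)).2 (by omega)
    have h3 : ((List.range (k - i)).map (fun x => i + 1 + x)).filter
        (fun j => decide (f j = 0)) = [] := by
      rw [List.filter_eq_nil_iff]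
      intro j hj
      rw [List.mem_map] at hj
      obtain ⟨t, ht, rfl⟩ := hj
      rw [List.mem_range] at ht
      rw [decide_eq_true_iff]
      intro h4
      have := (hf _ (by omega)).1 h4
      omega
    rw [h2, h3]
    simp
  rw [h1, List.range_succ, List.flatMap_append]
  simp

/-- block `0`: `x^(p+u) a x^v` -/
theorem ev0 {k i x a : ℕ} {f : ℕ → ℕ} {C : ℕ → List ℕ} (hik : i ≤ k)
    (hf : ∀ j ≤ k, (f j = 0 ↔ j ≤ i)) (hpre : ∀ j < i, a ∉ C j) (hC : (C i).count a = 1)
    (hxa : x ≠ a) :
    cb (C i) x a ≤ (C i).count x ∧ (pshB k f C 0).flatMap (sg x a) =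
      X (((List.range i).flatMap C).count x + cb (C i) x a) ++
        1 :: X ((C i).count x - cb (C i) x a) := by
  obtain ⟨P, Q, e, hP, hQ, hcb⟩ := spt hC
  have h1 : a ∉ (List.range i).flatMap C := by
    rw [List.mem_flatMap]
    rintro ⟨j, hj, hj2⟩
    rw [List.mem_range] at hj
    exact hpre j hj hj2
  have h2 : (C i).count x = P.count x + Q.count x := by
    rw [e, List.count_append, List.count_cons_of_ne (Ne.symm hxa)]
  rw [hcb x, h2]
  refine ⟨by omega, ?_⟩
  rw [pb0 C hik hf, List.flatMap_append, fx h1]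
  have h3 : (C i).flatMap (sg x a) = X (P.count x) ++ 1 :: X (Q.count x) := by
    rw [e, List.flatMap_append, List.flatMap_cons, fx hP, fx hQ]
    simp [sg, Ne.symm hxa]
  rw [h3, ← List.append_assoc, ← List.replicate_add]
  congr 3
  omega

/-- the block `t` without `a` -/
theorem evx {k t x a : ℕ} {f : ℕ → ℕ} {C : ℕ → List ℕ} (h : ∀ j ≤ k, f j = t → a ∉ C j) :
    (pshB k f C t).flatMap (sg x a) = X ((pshB k f C t).count x) := by
  apply fx
  rw [mem_pshB]
  rintro ⟨j, hj, hft, hm⟩
  exact h j hj hft hm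

/-- the block `t` without `x` -/
theorem evy {k t x a : ℕ} {f : ℕ → ℕ} {C : ℕ → List ℕ} (h : ∀ j ≤ k, f j = t → x ∉ C j) :
    (pshB k f C t).flatMap (sg x a) = Y ((pshB k f C t).count a) := by
  apply fy
  rw [mem_pshB]
  rintro ⟨j, hj, hft, hm⟩
  exact h j hj hft hm

theorem pos_psh {k t y : ℕ} {f : ℕ → ℕ} {C : ℕ → List ℕ} (h : ∃ j ≤ k, f j = t ∧ y ∈ C j) :
    1 ≤ (pshB k f C t).count y := by
  apply List.count_pos_iff.2
  rw [mem_pshB]
  exact h

/-! ### families of the same types -/

theorem fam_mem {n k : ℕ} {B B' : ℕ → List ℕ} (h : Fam n k B B') {c : ℕ} (hc : NS k c) {j : ℕ}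
    (hj : j ≤ k) : c ∈ B' j ↔ c ∈ B j := by
  have := h.eq c hc j hj
  simp only [MWS.ty] at this
  rw [← List.count_pos_iff, ← List.count_pos_iff]
  omega

theorem fam_symm {n k : ℕ} {B B' : ℕ → List ℕ} (h : Fam n k B B') : Fam n k B' B := by
  refine ⟨h.ok', h.ok, ?_, ?_⟩
  · intro c hc j hj
    rcases h.eq c hc j hj with h1 | ⟨h1, h2, h3⟩
    · exact Or.inl h1.symm
    · exact Or.inr ⟨h2, h1, h3.symm⟩
  · intro c hc l j hlj hjk hl hj
    have h1 := h.eq c hc l (by omega)
    have h2 := h.eq c hc j hjk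
    have h3 := h.gm c hc l j hlj hjk
    omega

theorem fam_ns {n k : ℕ} {B B' : ℕ → List ℕ} (h : Fam n k B B') {c i : ℕ} (hi : i ≤ k)
    (hc : c ∈ B i) : NS k c := h.ok.ok i hi c hc

theorem rg_iff {n k : ℕ} {B B' : ℕ → List ℕ} (h : Fam n k B B') {i x a : ℕ} (hx : NS k x)
    (ha : NS k a) : Rg k B' i x a ↔ Rg k B i x a := by
  unfold Rg
  constructor
  · intro h1 j j' h2 h3 h4 h5 h6 h7
    exact h1 j j' h2 h3 h4 h5 ((fam_mem h ha h3).2 h6) ((fam_mem h hx h5).2 h7)
  · intro h1 j j' h2 h3 h4 h5 h6 h7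
    exact h1 j j' h2 h3 h4 h5 ((fam_mem h ha h3).1 h6) ((fam_mem h hx h5).1 h7)

/-- a letter with entry `1` in block `i`: no occurrence before, one behind -/
theorem light {n k : ℕ} {B B' : ℕ → List ℕ} (h : Fam n k B B') {i a : ℕ} (hi : i ≤ k)
    (ha : (B i).count a = 1) :
    NS k a ∧ (∀ j < i, a ∉ B j) ∧ (∀ j < i, a ∉ B' j) ∧ (B' i).count a = 1 ∧
      ∃ j, i < j ∧ j ≤ k ∧ a ∈ B j := by
  have hm : a ∈ B i := List.count_pos_iff.1 (by omega)
  have hns := fam_ns h hi hm
  have h1 : ∀ j < i, a ∉ B j := by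
    intro j hj hmj
    have := h.gm a hns j i hj hi (by
      have := List.count_pos_iff.2 hmj
      simp only [MWS.ty]
      omega) (by simp only [MWS.ty]; omega)
    simp only [MWS.ty] at this
    omega
  have h2 : (B' i).count a = 1 := by
    have := h.eq a hns i hi
    simp only [MWS.ty] at this
    omega
  refine ⟨hns, h1, fun j hj hmj => h1 j hj ((fam_mem h hns (by omega)).1 hmj), h2, ?_⟩
  by_contra hcon
  push Not at hcon
  have h3 := h.ok.ml i hi a hm
  unfold deg at h3
  have h4 : ∑ j ∈ Finset.range (k + 1), (B j).count a = (B i).count a := by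
    apply Finset.sum_eq_single i
    · intro j hj hji
      rw [Finset.mem_range] at hj
      rw [List.count_eq_zero]
      rcases lt_or_gt_of_ne hji with h5 | h5
      · exact h1 j h5
      · exact hcon j h5 (by omega)
    · intro h5
      exact absurd (Finset.mem_range.2 (by omega)) h5
  rw [h4] at h3
  omega

end Pool.Agent.MWGR.H41
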